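import Pool.Agent.W191.EQ.AutB
import Pool.Agent.W516.MTZ.Stm

/-!
Any two transcendental numbers are related by an automorphism of the complex numbers (helper file
for project MTZ).
-/

namespace Pool.Agent.W346.MTZ

theorem T_AUT : Pool.Agent.W516.MTZ.StAut := by
  intro a b ha hb
  have h1 : AlgebraicIndependent ℚ (fun _ : Unit => a) :=
    (algebraicIndependent_unique_type_iff).2 ha
  have h2 : AlgebraicIndependent ℚ (fun _ : Unit => b) :=
    (algebraicIndependent_unique_type_iff).2 hb
  obtain ⟨σ, hσ⟩ := Pool.Agent.W191.EQ.autB Unit _ _ h1 h2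
  exact ⟨σ, hσ ()⟩

end Pool.Agent.W346.MTZ
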